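import Mathlib
import Pool.Agent.Q305.Welch

/-!
# MP_0eb1a9_lc: Player II can win the Ulam games on `κ` without winning the games `G*_γ`

Let `μ` be a measurable cardinal and `κ` an inaccessible cardinal above `μ` which is not a limit of
inaccessible cardinals, such as the least inaccessible cardinal above `μ`. Player II wins the Ulam
games on `κ` of all lengths below `μ` with the help of a `μ`-complete ultrafilter which concentrates
on a subset of `κ` of size `μ`. But there is an algebra of size `κ` without a uniform `κ`-complete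
ultrafilter, which Player I can play in the first stage of `G*_γ`.
-/

set_option autoImplicit false

namespace Pool.Agent.Results.MP_0eb1a9_lc.UlamNotStar

open Cardinal Set Pool.Agent.Q305.Welch

universe u

/-- `μ` is a measurable cardinal: it is uncountable and there is a nonprincipal `μ`-complete
ultrafilter on a set of size `μ`. -/
def IsMeasurable (μ : Cardinal.{u}) : Prop :=
  ℵ₀ < μ ∧ ∃ W : Ultrafilter μ.ord.ToType, (∀ x, {x} ∉ W) ∧
    ∀ S : Set (Set μ.ord.ToType), #S < μ → (∀ s ∈ S, s ∈ W) → ⋂₀ S ∈ W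

/-- Player II has a winning strategy in the Ulam game of length `γ` on the set `K`. Player I plays
a partition `P α` of the set `{x | ∀ β < α, x ∈ B β}` in two pieces, and the strategy `σ` tells
Player II from the moves `P β`, `β ≤ α`, which of the two pieces is `B α`. She wins if the
intersection of all the sets `B α` has at least two elements. -/
def WinsUlam (K : Type u) (γ : Ordinal.{u}) : Prop :=
  ∃ σ : (α : γ.ToType) → (Iic α → Set K × Set K) → Bool,
    ∀ (P : γ.ToType → Set K × Set K) (B : γ.ToType → Set K),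
      (∀ α, B α = if σ α (fun β => P β) = true then (P α).1 else (P α).2) →
      (∀ α, (P α).1 ∪ (P α).2 = {x | ∀ β < α, x ∈ B β} ∧ Disjoint (P α).1 (P α).2) →
      ∃ x y, x ≠ y ∧ ∀ α, x ∈ B α ∧ y ∈ B α

/-- The moves `A α` of Player I in the Welch game of length `γ` are legal: they form an increasing
sequence of `κ`-complete algebras of size `κ` containing all singletons, `κ` being the cardinality
of `K`. -/
def LegalAlgebras {K : Type u} {γ : Ordinal.{u}} (A : γ.ToType → Set (Set K)) : Prop :=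
  (∀ α, IsCompleteAlgebra (A α) ∧ #(A α) = #K) ∧ (∀ β α, β ≤ α → A β ⊆ A α) ∧
    ∀ α x, {x} ∈ A α

/-- The `κ`-complete algebra generated by a family of subsets of `K`. -/
def generated {K : Type u} (G : Set (Set K)) : Set (Set K) :=
  {s | ∀ A, IsCompleteAlgebra A → G ⊆ A → s ∈ A}

/-- Player II has a winning strategy in the game `G*_γ`: a rule `σ` which gives her move `U α` from
the moves `A β`, `β ≤ α`, of Player I, such that in all plays in which Player I makes legal moves,
the sets `U α` are uniform `κ`-complete ultrafilters on the algebras `A α` which increase with `α`,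
and their union extends to a uniform `κ`-complete ultrafilter on the `κ`-complete algebra generated
by all the algebras. -/
def WinsStar (K : Type u) (γ : Ordinal.{u}) : Prop :=
  ∃ σ : (α : γ.ToType) → (Iic α → Set (Set K)) → Set (Set K),
    ∀ A U : γ.ToType → Set (Set K), LegalAlgebras A → (∀ α, U α = σ α (fun β => A β)) →
      (∀ α, IsUniformUltrafilter (A α) (U α)) ∧ (∀ β α, β ≤ α → U β ⊆ U α) ∧
      ∃ V, IsUniformUltrafilter (generated (⋃ α, A α)) V ∧ ∀ α, U α ⊆ V

/-- `κ` is not a limit of inaccessible cardinals. -/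
def NotLimitOfInaccessibles (κ : Cardinal.{u}) : Prop :=
  ∃ δ < κ, ∀ c : Cardinal.{u}, δ < c → c < κ → ¬ c.IsInaccessible

theorem winsUlam {μ κ : Cardinal.{u}} (hμ : IsMeasurable μ) (hμκ : μ < κ) (γ : Ordinal.{u})
    (hγ : γ.card < μ) : WinsUlam κ.ord.ToType γ := by
  classical
  obtain ⟨hω, W, hW1, hW2⟩ := hμ
  obtain ⟨j⟩ : Nonempty (μ.ord.ToType ↪ κ.ord.ToType) := by
    rw [← Cardinal.le_def, Cardinal.mk_ord_toType, Cardinal.mk_ord_toType]
    exact hμκ.le
  let W' : Ultrafilter κ.ord.ToType := W.map j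
  have hW' : ∀ s, s ∈ W' ↔ j ⁻¹' s ∈ W := fun s => Ultrafilter.mem_map
  have hW1' : ∀ y, {y} ∉ W' := by
    intro y hy
    rw [hW'] at hy
    obtain ⟨x, hx⟩ := W.nonempty_of_mem hy
    refine hW1 x (Filter.mem_of_superset hy fun z hz => ?_)
    have h1 : j z = y := hz
    have h2 : j x = y := hx
    exact j.injective (h1.trans h2.symm)
  have hcomp : ∀ {ι : Type u} (_ : #ι < μ) (s : ι → Set κ.ord.ToType), (∀ i, s i ∈ W') →
      {x | ∀ i, x ∈ s i} ∈ W' := by
    intro ι hι s hs
    rw [hW']
    have h1 := hW2 (range fun i => j ⁻¹' s i) (Cardinal.mk_range_le.trans_lt hι) (by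
      rintro _ ⟨i, rfl⟩
      exact (hW' _).1 (hs i))
    refine Filter.mem_of_superset h1 fun x hx i => ?_
    exact hx _ ⟨i, rfl⟩
  refine ⟨fun α P => decide ((P ⟨α, mem_Iic.2 le_rfl⟩).1 ∈ W'), fun P B hB hP => ?_⟩
  have hBW : ∀ α, B α ∈ W' := by
    intro α
    induction α using WellFoundedLT.induction with
    | ind α ih =>
      have h1 : {x | ∀ β < α, x ∈ B β} ∈ W' := by
        have h2 := hcomp (ι := Iio α) (by
          refine (Cardinal.mk_set_le _).trans_lt ?_
          rwa [Cardinal.mk_toType]) (fun β => B β.1) fun β => ih β.1 β.2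
        refine Filter.mem_of_superset h2 fun x hx β hβ => ?_
        exact hx ⟨β, hβ⟩
      rw [← (hP α).1] at h1
      rw [hB α]
      by_cases h2 : (P α).1 ∈ W'
      · rw [if_pos (by simpa using h2)]
        exact h2
      · rw [if_neg (by simpa using h2)]
        exact (Ultrafilter.union_mem_iff.1 h1).resolve_left h2
  have hall : {x | ∀ α, x ∈ B α} ∈ W' :=
    hcomp (by rwa [Cardinal.mk_toType]) B hBW
  obtain ⟨x, hx⟩ := W'.nonempty_of_mem hall
  by_contra hcon
  push Not at hcon
  refine hW1' x (Filter.mem_of_superset hall fun y hy => ?_)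
  by_contra hne
  obtain ⟨α, hα⟩ := hcon x y (fun h => hne h.symm)
  exact hα (hx α) (hy α)

theorem not_winsStar {κ : Cardinal.{u}} (hκ : κ.IsInaccessible) (hlim : NotLimitOfInaccessibles κ)
    (γ : Ordinal.{u}) (hγ : γ ≠ 0) : ¬ WinsStar κ.ord.ToType γ := by
  rintro ⟨σ, hσ⟩
  obtain ⟨δ, hδ, hδ'⟩ := hlim
  obtain ⟨A, hA1, hA2, hA3, hA4⟩ := no_ultra hκ hδ hδ'
  have hne : Nonempty γ.ToType := by
    by_contra h
    rw [not_nonempty_iff, Ordinal.isEmpty_toType_iff] at h
    exact hγ h
  obtain ⟨α⟩ := hne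
  obtain ⟨h1, -⟩ := hσ (fun _ => A) (fun α => σ α fun _ => A)
    ⟨fun _ => ⟨hA1, by rw [hA3, Cardinal.mk_ord_toType]⟩, fun _ _ _ => Subset.rfl, fun _ => hA2⟩
    fun _ => rfl
  exact hA4 _ (h1 α)

/-- Let `μ` be a measurable cardinal. For every inaccessible `κ > μ` which is not a limit of
inaccessibles and every limit ordinal `γ` of size less than `μ` (for example `γ = ω`), Player II has
a winning strategy in the Ulam game of length `γ` on `κ`, but not in `G*_γ`. There is such a cardinal
`κ` if there is any inaccessible cardinal above `μ`. -/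
theorem result (μ : Cardinal.{u}) (hμ : IsMeasurable μ) :
    (∀ κ : Cardinal.{u}, μ < κ → κ.IsInaccessible → NotLimitOfInaccessibles κ →
      ∀ γ : Ordinal.{u}, Order.IsSuccLimit γ → γ.card < μ →
        WinsUlam κ.ord.ToType γ ∧ ¬ WinsStar κ.ord.ToType γ) ∧
    ((∃ κ : Cardinal.{u}, μ < κ ∧ κ.IsInaccessible) →
      ∃ κ : Cardinal.{u}, μ < κ ∧ κ.IsInaccessible ∧ NotLimitOfInaccessibles κ) := by
  refine ⟨fun κ h1 h2 h3 γ h4 h5 => ⟨winsUlam hμ h1 γ h5, not_winsStar h2 h3 γ h4.ne_bot⟩, ?_⟩
  rintro ⟨κ, hκ⟩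
  obtain ⟨κ', ⟨h1, h2⟩, h3⟩ := WellFounded.has_min (wellFounded_lt (α := Cardinal.{u}))
    {κ | μ < κ ∧ κ.IsInaccessible} ⟨κ, hκ⟩
  exact ⟨κ', h1, h2, μ, h1, fun c hc hc' hi => h3 c ⟨hc, hi⟩ hc'⟩

end Pool.Agent.Results.MP_0eb1a9_lc.UlamNotStar
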